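import Mathlib

set_option autoImplicit false

namespace Pool.Agent.Helper69.LapEnergy

lemma aux1 (x : ℝ) (h0 : 0 ≤ x) (h1 : x ≤ 1) : 2 * (x ^ 2 * (1 - x)) ≤ (1 - x) * (1 + x) := by
  nlinarith [mul_nonneg (sub_nonneg.2 h1) (mul_nonneg (sub_nonneg.2 h1)
    (by linarith : (0 : ℝ) ≤ 1 + 2 * x))]

lemma aux2 (ε x : ℝ) (h0 : 0 < ε) (h1 : ε ≤ 1) (hx : x ≤ ε / 4) : 1 ≤ (1 + ε) * (1 - x) := by
  have : (1 + ε) * (1 - ε / 4) ≤ (1 + ε) * (1 - x) :=
    mul_le_mul_of_nonneg_left (by linarith) (by linarith)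
  nlinarith

lemma aux3 (ε : ℝ) (h0 : 0 < ε) (h1 : ε ≤ 1) : 1 + ε / 2 ≤ (1 + ε) * (1 - ε / 4) := by
  nlinarith

lemma asym_upper (ε : ℝ) (hε : 0 < ε) (hε1 : ε ≤ 1) (n m A B E R : ℝ)
    (hn : (128 / ε ^ 3) ^ 2 ≤ n) (hR : 0 ≤ R) (hRn : R ^ 2 = n)
    (hA : 0 ≤ A) (hB : 0 ≤ B) (hAm : n ^ 2 * A ^ 2 = 2 * m) (hBm : n ^ 2 * B ^ 2 = n ^ 2 - 2 * m)
    (hm : n - 1 ≤ m)
    (h1 : E ≤ 4 * m - 2 * n + 4) (h2 : E ≤ 2 * (n ^ 2 - 2 * m))
    (h3 : E ≤ 2 * n ^ 2 * max (A ^ 2 * (1 - A)) (B ^ 2 * (1 - B)) + 2 * n * R) :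
    E ≤ (1 + ε) * max ((4 * m - 2 * n) * (1 - A)) (2 * (n ^ 2 - 2 * m) * (1 - B)) := by
  have hε3 : 0 < ε ^ 3 := by positivity
  have hε31 : ε ^ 3 ≤ 1 := pow_le_one₀ hε.le hε1
  have hRbig : 128 / ε ^ 3 ≤ R := by
    by_contra h
    push Not at h
    have : R ^ 2 < (128 / ε ^ 3) ^ 2 := by
      apply pow_lt_pow_left₀ h hR (by norm_num)
    linarith
  have hR2 : 128 ≤ ε ^ 3 * R := by
    rw [div_le_iff₀ hε3] at hRbig; linarith
  have hR128 : 128 ≤ R := by nlinarith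
  have hn1 : 128 * 128 ≤ n := by rw [← hRn]; nlinarith
  have hn0 : 0 < n := by linarith
  have hεR : 128 ≤ ε * R := by
    have : ε ^ 3 ≤ ε := by
      calc ε ^ 3 = ε * ε ^ 2 := by ring
        _ ≤ ε * 1 := by gcongr; exact pow_le_one₀ hε.le hε1
        _ = ε := mul_one _
    nlinarith
  have hεn : 128 * 128 ≤ ε * n := by
    rw [← hRn]; nlinarith
  have hAB : A ^ 2 + B ^ 2 = 1 := by
    have : n ^ 2 * (A ^ 2 + B ^ 2) = n ^ 2 * 1 := by linarith
    exact mul_left_cancel₀ (by positivity) this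
  set P := (4 * m - 2 * n) * (1 - A) with hP
  set Q := 2 * (n ^ 2 - 2 * m) * (1 - B) with hQ
  have hQ' : Q = 2 * n ^ 2 * (B ^ 2 * (1 - B)) := by rw [hQ, ← hBm]; ring
  have hP' : P = 2 * n ^ 2 * (A ^ 2 * (1 - A)) - 2 * n * (1 - A) := by
    rw [hP]
    have : 4 * m = 2 * (n ^ 2 * A ^ 2) := by linarith
    rw [this]; ring
  have hA1 : A ≤ 1 := by nlinarith [sq_nonneg B]
  have hB1 : B ≤ 1 := by nlinarith [sq_nonneg A]
  rcases le_total A (ε / 4) with hAe | hAe
  · have hPle : P ≤ max P Q := le_max_left _ _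
    have hm4 : 2 * n - 4 ≤ 4 * m - 2 * n := by linarith
    have hm0 : 0 ≤ 4 * m - 2 * n := by linarith
    have h4 : (4 * m - 2 * n) * (1 - ε / 4) ≤ P := by
      rw [hP]; apply mul_le_mul_of_nonneg_left _ hm0; linarith
    have h5 : (1 + ε) * P ≤ (1 + ε) * max P Q := mul_le_mul_of_nonneg_left hPle (by linarith)
    have h6 : (1 + ε) * ((4 * m - 2 * n) * (1 - ε / 4)) ≤ (1 + ε) * P :=
      mul_le_mul_of_nonneg_left h4 (by linarith)
    have h7 : (4 * m - 2 * n) * (1 + ε / 2) ≤ (1 + ε) * ((4 * m - 2 * n) * (1 - ε / 4)) := by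
      calc (4 * m - 2 * n) * (1 + ε / 2) ≤ (4 * m - 2 * n) * ((1 + ε) * (1 - ε / 4)) :=
            mul_le_mul_of_nonneg_left (aux3 ε hε hε1) hm0
        _ = _ := by ring
    have h8 : 4 ≤ (4 * m - 2 * n) * (ε / 2) := by
      have : (2 * n - 4) * (ε / 2) ≤ (4 * m - 2 * n) * (ε / 2) :=
        mul_le_mul_of_nonneg_right hm4 (by linarith)
      have e : (2 * n - 4) * (ε / 2) = ε * n - 2 * ε := by ring
      linarith
    have e9 : (4 * m - 2 * n) * (1 + ε / 2) = 4 * m - 2 * n + (4 * m - 2 * n) * (ε / 2) := by ring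
    linarith
  rcases le_total B (ε / 4) with hBe | hBe
  · have hQle : Q ≤ max P Q := le_max_right _ _
    have h5 : (1 + ε) * Q ≤ (1 + ε) * max P Q := mul_le_mul_of_nonneg_left hQle (by linarith)
    have h6 : 2 * (n ^ 2 - 2 * m) ≤ (1 + ε) * Q := by
      rw [hQ]
      have h0 : 0 ≤ 2 * (n ^ 2 - 2 * m) := by rw [← hBm]; positivity
      calc 2 * (n ^ 2 - 2 * m) = 2 * (n ^ 2 - 2 * m) * 1 := by ring
        _ ≤ 2 * (n ^ 2 - 2 * m) * ((1 + ε) * (1 - B)) :=
            mul_le_mul_of_nonneg_left (aux2 ε B hε hε1 hBe) h0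
        _ = _ := by ring
    linarith
  · -- the middle range
    have hmax : 2 * n ^ 2 * max (A ^ 2 * (1 - A)) (B ^ 2 * (1 - B)) ≤ max P Q + 2 * n := by
      rw [mul_max_of_nonneg _ _ (by positivity)]
      apply max_le
      · have : 2 * n ^ 2 * (A ^ 2 * (1 - A)) ≤ P + 2 * n := by
          rw [hP']
          have : 2 * n * (1 - A) ≤ 2 * n * 1 := mul_le_mul_of_nonneg_left (by linarith) (by linarith)
          linarith
        linarith [le_max_left P Q]
      · rw [← hQ']; linarith [le_max_right P Q]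
    have hlow : n ^ 2 * ε ^ 2 / 32 ≤ 2 * n ^ 2 * max (A ^ 2 * (1 - A)) (B ^ 2 * (1 - B)) := by
      have key : ε ^ 2 / 64 ≤ max (A ^ 2 * (1 - A)) (B ^ 2 * (1 - B)) := by
        rcases le_total A (3 / 4) with h | h
        · refine le_trans ?_ (le_max_left _ _)
          have h1 : ε ^ 2 / 16 ≤ A ^ 2 := by
            calc ε ^ 2 / 16 = (ε / 4) ^ 2 := by ring
              _ ≤ A ^ 2 := pow_le_pow_left₀ (by linarith) hAe 2
          calc ε ^ 2 / 64 = ε ^ 2 / 16 * (1 / 4) := by ring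
            _ ≤ A ^ 2 * (1 - A) := mul_le_mul h1 (by linarith) (by norm_num) (sq_nonneg A)
        · refine le_trans ?_ (le_max_right _ _)
          have hB34 : B ≤ 3 / 4 := by
            by_contra hc
            push Not at hc
            have h1 : (3 / 4 : ℝ) ^ 2 ≤ A ^ 2 := pow_le_pow_left₀ (by norm_num) h 2
            have h2 : (3 / 4 : ℝ) ^ 2 ≤ B ^ 2 := pow_le_pow_left₀ (by norm_num) hc.le 2
            norm_num at h1 h2
            linarith
          have h1 : ε ^ 2 / 16 ≤ B ^ 2 := by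
            calc ε ^ 2 / 16 = (ε / 4) ^ 2 := by ring
              _ ≤ B ^ 2 := pow_le_pow_left₀ (by linarith) hBe 2
          calc ε ^ 2 / 64 = ε ^ 2 / 16 * (1 / 4) := by ring
            _ ≤ B ^ 2 * (1 - B) := mul_le_mul h1 (by linarith) (by norm_num) (sq_nonneg B)
      calc n ^ 2 * ε ^ 2 / 32 = 2 * n ^ 2 * (ε ^ 2 / 64) := by ring
        _ ≤ _ := mul_le_mul_of_nonneg_left key (by positivity)
    have hΦ : n ^ 2 * ε ^ 2 / 32 - 2 * n ≤ max P Q := by linarith
    have hfin : 2 * n + 2 * n * R ≤ ε * (n ^ 2 * ε ^ 2 / 32 - 2 * n) := by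
      have e1 : ε * (n ^ 2 * ε ^ 2 / 32 - 2 * n) = n * (ε ^ 3 * R * R / 32 - 2 * ε) := by
        rw [show ε ^ 3 * R * R = ε ^ 3 * R ^ 2 by ring, hRn]; ring
      have e2 : 2 * n + 2 * n * R = n * (2 + 2 * R) := by ring
      rw [e1, e2]
      apply mul_le_mul_of_nonneg_left _ hn0.le
      have : 128 * R ≤ ε ^ 3 * R * R := mul_le_mul_of_nonneg_right hR2 hR
      linarith
    have : ε * (n ^ 2 * ε ^ 2 / 32 - 2 * n) ≤ ε * max P Q := mul_le_mul_of_nonneg_left hΦ hε.le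
    linarith

lemma asym_lower (ε : ℝ) (hε : 0 < ε) (hε1 : ε ≤ 1) (n m A B E R : ℝ)
    (hn : (320 / ε) ^ 2 ≤ n) (hR : 0 ≤ R) (hRn : R ^ 2 = n)
    (hA : 0 ≤ A) (hB : 0 ≤ B) (hAm : n ^ 2 * A ^ 2 = 2 * m) (hBm : n ^ 2 * B ^ 2 = n ^ 2 - 2 * m)
    (hm : n - 1 ≤ m)
    (h1 : (4 * m - 2 * n) * (1 - A) - 8 * n * A ≤ E)
    (h2 : 2 * (n ^ 2 - 2 * m) * (1 - B) - 6 * n * B ^ 2 ≤ E) :
    (1 - ε) * max ((4 * m - 2 * n) * (1 - A)) (2 * (n ^ 2 - 2 * m) * (1 - B)) ≤ E := by
  have hRbig : 320 / ε ≤ R := by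
    by_contra h
    push Not at h
    have : R ^ 2 < (320 / ε) ^ 2 := by
      apply pow_lt_pow_left₀ h hR (by norm_num)
    linarith
  have hεR : 320 ≤ ε * R := by
    rw [div_le_iff₀ hε] at hRbig; linarith
  have hR320 : 320 ≤ R := by nlinarith
  have hn1 : 320 * 320 ≤ n := by rw [← hRn]; nlinarith
  have hn0 : 0 < n := by linarith
  have hεn : 320 * 320 ≤ ε * n := by rw [← hRn]; nlinarith
  have hAB : A ^ 2 + B ^ 2 = 1 := by
    have : n ^ 2 * (A ^ 2 + B ^ 2) = n ^ 2 * 1 := by linarith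
    exact mul_left_cancel₀ (by positivity) this
  have hA1 : A ≤ 1 := by nlinarith [sq_nonneg B]
  have hB1 : B ≤ 1 := by nlinarith [sq_nonneg A]
  set P := (4 * m - 2 * n) * (1 - A) with hP
  set Q := 2 * (n ^ 2 - 2 * m) * (1 - B) with hQ
  have hQ' : Q = 2 * n ^ 2 * (B ^ 2 * (1 - B)) := by rw [hQ, ← hBm]; ring
  have hm0 : 0 ≤ 4 * m - 2 * n := by linarith
  have hQ2m : Q ≤ 2 * m := by
    rw [hQ', ← hAm]
    have : 2 * (B ^ 2 * (1 - B)) ≤ A ^ 2 := by
      have e : A ^ 2 = (1 - B) * (1 + B) := by linarith [show (1 - B) * (1 + B) = 1 - B ^ 2 by ring]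
      rw [e]; exact aux1 B hB hB1
    calc 2 * n ^ 2 * (B ^ 2 * (1 - B)) = n ^ 2 * (2 * (B ^ 2 * (1 - B))) := by ring
      _ ≤ n ^ 2 * A ^ 2 := mul_le_mul_of_nonneg_left this (by positivity)
  rcases le_total A (1 / 3) with hA3 | hA3
  · rcases le_total (2 * n) m with hm2 | hm2
    · have hP2m : 2 * m ≤ P := by
        have h1 : (3 * m) * (2 / 3) ≤ (4 * m - 2 * n) * (1 - A) :=
          mul_le_mul (by linarith) (by linarith) (by norm_num) hm0
        rw [hP]; linarith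
      have hPQ : max P Q = P := max_eq_left (hQ2m.trans hP2m)
      rw [hPQ]
      have hnA : 8 ≤ ε * (n * A) := by
        by_contra h
        push Not at h
        have hnA0 : 0 ≤ n * A := by positivity
        have : (ε * (n * A)) ^ 2 < 8 ^ 2 := by
          apply pow_lt_pow_left₀ h (by positivity) (by norm_num)
        have e : (ε * (n * A)) ^ 2 = ε ^ 2 * (2 * m) := by rw [← hAm]; ring
        rw [e] at this
        have h11 : ε ^ 2 * (4 * n) ≤ ε ^ 2 * (2 * m) :=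
          mul_le_mul_of_nonneg_left (by linarith) (sq_nonneg ε)
        have h12 : ε ^ 2 * (4 * n) = 4 * (ε * R) ^ 2 := by rw [← hRn]; ring
        have h13 : (320 : ℝ) ^ 2 ≤ (ε * R) ^ 2 := pow_le_pow_left₀ (by norm_num) hεR 2
        linarith
      have : 8 * n * A ≤ ε * P := by
        have h5 : ε * (n ^ 2 * A ^ 2) ≤ ε * P := by
          apply mul_le_mul_of_nonneg_left _ hε.le; rw [hAm]; exact hP2m
        have h6 : 8 * (n * A) ≤ (ε * (n * A)) * (n * A) :=
          mul_le_mul_of_nonneg_right hnA (by positivity)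
        have h7 : (ε * (n * A)) * (n * A) = ε * (n ^ 2 * A ^ 2) := by ring
        linarith
      linarith
    · have hnA : n * A ≤ 2 * R := by
        by_contra h
        push Not at h
        have : (2 * R) ^ 2 < (n * A) ^ 2 := pow_lt_pow_left₀ h (by positivity) (by norm_num)
        have e1 : (2 * R) ^ 2 = 4 * n := by rw [← hRn]; ring
        have e2 : (n * A) ^ 2 = 2 * m := by rw [← hAm]; ring
        linarith
      have hΦ : max P Q ≤ 4 * m - 2 * n + 2 := by
        apply max_le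
        · rw [hP]
          have : (4 * m - 2 * n) * (1 - A) ≤ (4 * m - 2 * n) * 1 :=
            mul_le_mul_of_nonneg_left (by linarith) hm0
          linarith
        · linarith
      have hE : (4 * m - 2 * n) - 28 * R ≤ E := by
        have e : P = (4 * m - 2 * n) - (4 * m - 2 * n) * A := by rw [hP]; ring
        have : (4 * m - 2 * n) * A ≤ (6 * n) * A := mul_le_mul_of_nonneg_right (by linarith) hA
        have e3 : 8 * n * A = 8 * (n * A) := by ring
        have e4 : (6 * n) * A = 6 * (n * A) := by ring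
        linarith
      have h7 : (1 - ε) * max P Q ≤ (1 - ε) * (4 * m - 2 * n + 2) :=
        mul_le_mul_of_nonneg_left hΦ (by linarith)
      have h8 : 28 * R + 2 ≤ ε * (4 * m - 2 * n + 2) := by
        have : ε * (2 * n - 2) ≤ ε * (4 * m - 2 * n + 2) := by
          apply mul_le_mul_of_nonneg_left _ hε.le; linarith
        have h9 : ε * (2 * n - 2) = 2 * ((ε * R) * R) - 2 * ε := by rw [← hRn]; ring
        have h10 : 320 * R ≤ (ε * R) * R := mul_le_mul_of_nonneg_right hεR hR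
        linarith
      linarith
  · have hB2 : B ≤ 19 / 20 := by
      by_contra hc
      push Not at hc
      have h1 : (1 / 3 : ℝ) ^ 2 ≤ A ^ 2 := pow_le_pow_left₀ (by norm_num) hA3 2
      have h2 : (19 / 20 : ℝ) ^ 2 ≤ B ^ 2 := pow_le_pow_left₀ (by norm_num) hc.le 2
      norm_num at h1 h2
      linarith
    rcases le_total P Q with hPQ | hPQ
    · rw [max_eq_right hPQ]
      have : 6 * n * B ^ 2 ≤ ε * Q := by
        rw [hQ']
        have h5 : (1 / 20) * B ^ 2 ≤ B ^ 2 * (1 - B) := by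
          rw [mul_comm]; exact mul_le_mul_of_nonneg_left (by linarith) (sq_nonneg B)
        have h6 : ε * (2 * n ^ 2 * ((1 / 20) * B ^ 2)) ≤ ε * (2 * n ^ 2 * (B ^ 2 * (1 - B))) := by
          gcongr
        have h7 : ε * (2 * n ^ 2 * ((1 / 20) * B ^ 2)) = (ε * n) * (n * B ^ 2) / 10 := by ring
        have h8 : (60 : ℝ) * (n * B ^ 2) ≤ (ε * n) * (n * B ^ 2) :=
          mul_le_mul_of_nonneg_right (by linarith) (by positivity)
        linarith
      linarith
    · rw [max_eq_left hPQ]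
      by_cases hBh : B ≤ 1 / 2
      · -- then P ≤ Q, so P = Q
        have hQlow : n ^ 2 * B ^ 2 ≤ Q := by
          rw [hQ']
          have h1 : B ^ 2 * (1 / 2) ≤ B ^ 2 * (1 - B) :=
            mul_le_mul_of_nonneg_left (by linarith) (sq_nonneg B)
          calc n ^ 2 * B ^ 2 = 2 * n ^ 2 * (B ^ 2 * (1 / 2)) := by ring
            _ ≤ _ := mul_le_mul_of_nonneg_left h1 (by positivity)
        have hPup : P ≤ n ^ 2 * B ^ 2 := by
          have e : P = 2 * n ^ 2 * (A ^ 2 * (1 - A)) - 2 * n * (1 - A) := by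
            rw [hP]
            have : 4 * m = 2 * (n ^ 2 * A ^ 2) := by linarith
            rw [this]; ring
          have e2 : B ^ 2 = (1 - A) * (1 + A) := by
            linarith [show (1 - A) * (1 + A) = 1 - A ^ 2 by ring]
          have h1 : 2 * (A ^ 2 * (1 - A)) ≤ B ^ 2 := by rw [e2]; exact aux1 A hA hA1
          have h2 : n ^ 2 * (2 * (A ^ 2 * (1 - A))) ≤ n ^ 2 * B ^ 2 :=
            mul_le_mul_of_nonneg_left h1 (by positivity)
          have h3 : 0 ≤ 2 * n * (1 - A) := mul_nonneg (by linarith) (by linarith)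
          have h4 : n ^ 2 * (2 * (A ^ 2 * (1 - A))) = 2 * n ^ 2 * (A ^ 2 * (1 - A)) := by ring
          rw [e]; linarith
        have hPQe : P = Q := le_antisymm (hPup.trans hQlow) hPQ
        rw [hPQe]
        have : 6 * n * B ^ 2 ≤ ε * Q := by
          have h8 : (6 : ℝ) * (n * B ^ 2) ≤ (ε * n) * (n * B ^ 2) :=
            mul_le_mul_of_nonneg_right (by linarith) (by positivity)
          have h9 : (ε * n) * (n * B ^ 2) = ε * (n ^ 2 * B ^ 2) := by ring
          have h10 : ε * (n ^ 2 * B ^ 2) ≤ ε * Q := mul_le_mul_of_nonneg_left hQlow hε.le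
          linarith
        linarith
      · push Not at hBh
        have hQlow : n ^ 2 / 40 ≤ Q := by
          rw [hQ']
          have h1 : (1 / 2 : ℝ) ^ 2 ≤ B ^ 2 := pow_le_pow_left₀ (by norm_num) hBh.le 2
          have h2 : (1 / 4 : ℝ) * (1 / 20) ≤ B ^ 2 * (1 - B) :=
            mul_le_mul (by norm_num at h1 ⊢; linarith) (by linarith) (by norm_num) (sq_nonneg B)
          calc n ^ 2 / 40 = 2 * n ^ 2 * (1 / 4 * (1 / 20)) := by ring
            _ ≤ _ := mul_le_mul_of_nonneg_left h2 (by positivity)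
        have : 8 * n * A ≤ ε * P := by
          have h5 : ε * (n ^ 2 / 40) ≤ ε * P := mul_le_mul_of_nonneg_left (hQlow.trans hPQ) hε.le
          have h6 : 8 * n * A ≤ 8 * n * 1 := mul_le_mul_of_nonneg_left hA1 (by positivity)
          have h7 : ε * (n ^ 2 / 40) = (ε * n) * n / 40 := by ring
          have h8 : (320 * 320) * n ≤ (ε * n) * n := mul_le_mul_of_nonneg_right hεn hn0.le
          linarith
        linarith

end Pool.Agent.Helper69.LapEnergy
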