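import Mathlib

set_option autoImplicit false

namespace Pool.Agent.Helper69.LapEnergy

/-- The optimisation over the (scaled) number of large eigenvalues. -/
lemma g_bound (a b x s e : ℝ) (ha : 0 ≤ a) (hb : 0 ≤ b) (hab : a ^ 2 + b ^ 2 = 1) (he : 0 ≤ e)
    (hx0 : 0 ≤ x) (h1 : s ≤ a ^ 2 / 2 + x ^ 2 / 2 + e) (h2 : s ≤ x) (h3 : s ≤ a ^ 2) :
    s - a ^ 2 * x ≤ max (a ^ 2 * (1 - a)) (b ^ 2 * (1 - b)) + e := by
  have hb2 : b ^ 2 = 1 - a ^ 2 := by linarith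
  rcases le_total a x with hxa | hxa
  · have : s - a ^ 2 * x ≤ a ^ 2 * (1 - a) := by nlinarith [mul_le_mul_of_nonneg_left hxa (sq_nonneg a)]
    linarith [le_max_left (a ^ 2 * (1 - a)) (b ^ 2 * (1 - b))]
  rcases le_total x (1 - b) with hxb | hxb
  · have : s - a ^ 2 * x ≤ b ^ 2 * (1 - b) := by
      have : s - a ^ 2 * x ≤ x * b ^ 2 := by rw [hb2]; nlinarith
      nlinarith [mul_le_mul_of_nonneg_left hxb (sq_nonneg b)]
    linarith [le_max_right (a ^ 2 * (1 - a)) (b ^ 2 * (1 - b))]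
  · have hq : x ^ 2 ≤ (1 - b + a) * x - (1 - b) * a := by nlinarith
    have hs : s - a ^ 2 * x ≤ a ^ 2 / 2 - (1 - b) * a / 2 + ((1 - b + a) / 2 - a ^ 2) * x + e := by
      nlinarith
    rcases le_total 0 ((1 - b + a) / 2 - a ^ 2) with hσ | hσ
    · have : ((1 - b + a) / 2 - a ^ 2) * x ≤ ((1 - b + a) / 2 - a ^ 2) * a :=
        mul_le_mul_of_nonneg_left hxa hσ
      have h5 : s - a ^ 2 * x ≤ a ^ 2 * (1 - a) + e := by nlinarith
      linarith [le_max_left (a ^ 2 * (1 - a)) (b ^ 2 * (1 - b))]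
    · have : ((1 - b + a) / 2 - a ^ 2) * x ≤ ((1 - b + a) / 2 - a ^ 2) * (1 - b) :=
        mul_le_mul_of_nonpos_left hxb hσ
      have h6 : a ^ 2 / 2 - (1 - b) * a / 2 + ((1 - b + a) / 2 - a ^ 2) * (1 - b)
          = b ^ 2 * (1 - b) := by
        have : a ^ 2 = 1 - b ^ 2 := by linarith
        rw [this]; ring
      have h5 : s - a ^ 2 * x ≤ b ^ 2 * (1 - b) + e := by linarith
      linarith [le_max_right (a ^ 2 * (1 - a)) (b ^ 2 * (1 - b))]

end Pool.Agent.Helper69.LapEnergy
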