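import Pool.Agent.Helper69.LapEnergy.Upper
import Pool.Agent.Helper69.LapEnergy.Real

set_option autoImplicit false
set_option linter.unusedSectionVars false

open Finset Matrix

namespace Pool.Agent.Helper69.LapEnergy

variable {V : Type*} [Fintype V] [DecidableEq V]
variable (G : SimpleGraph V) [DecidableRel G.Adj]

lemma energy_eq' [Nonempty V] : ∃ I : Finset V,
    (∀ i ∈ I, 2 * (#G.edgeFinset : ℝ) / Fintype.card V < ev G i) ∧
    energy G = 2 * (∑ i ∈ I, ev G i - #I * (2 * (#G.edgeFinset : ℝ) / Fintype.card V)) := by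
  refine ⟨univ.filter (fun i => 2 * (#G.edgeFinset : ℝ) / Fintype.card V < ev G i),
    fun i hi => by simpa using hi, ?_⟩
  rw [energy_eq, Finset.sum_sub_distrib, Finset.sum_const, nsmul_eq_mul]

lemma two_edges_le [Nonempty V] :
    2 * (#G.edgeFinset : ℝ) ≤ (Fintype.card V : ℝ) ^ 2 := by
  have h := bound_C G (Finset.univ)
  rw [sum_ev, Finset.card_univ] at h
  nlinarith

lemma ub1 [Nonempty V] (hd : ∀ v, 1 ≤ G.degree v)
    (hm : (Fintype.card V : ℝ) - 1 ≤ #G.edgeFinset) :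
    energy G ≤ 4 * #G.edgeFinset - 2 * Fintype.card V + 4 := by
  obtain ⟨I, hI, hE⟩ := energy_eq' G
  have hn : (0 : ℝ) < Fintype.card V := by exact_mod_cast Fintype.card_pos
  have hc0 : 0 ≤ 2 * (#G.edgeFinset : ℝ) / Fintype.card V := by positivity
  have hD := bound_D G hd I fun i hi => lt_of_le_of_lt hc0 (hI i hi)
  have hk : (#I : ℝ) ≤ Fintype.card V := by exact_mod_cast Finset.card_le_univ I
  have h2 : (#I : ℝ) * (2 - 2 * (#G.edgeFinset : ℝ) / Fintype.card V) ≤ 2 := by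
    have : 2 - 2 * (#G.edgeFinset : ℝ) / Fintype.card V ≤ 2 / Fintype.card V := by
      rw [sub_le_iff_le_add, ← add_div, le_div_iff₀ hn]; linarith
    calc (#I : ℝ) * (2 - 2 * (#G.edgeFinset : ℝ) / Fintype.card V)
        ≤ #I * (2 / Fintype.card V) := mul_le_mul_of_nonneg_left this (by positivity)
      _ ≤ Fintype.card V * (2 / Fintype.card V) := mul_le_mul_of_nonneg_right hk (by positivity)
      _ = 2 := by field_simp
  rw [hE]; nlinarith

lemma ub2 [Nonempty V] : energy G ≤ 2 * ((Fintype.card V : ℝ) ^ 2 - 2 * #G.edgeFinset) := by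
  obtain ⟨I, hI, hE⟩ := energy_eq' G
  have hn : (0 : ℝ) < Fintype.card V := by exact_mod_cast Fintype.card_pos
  have hC := bound_C G I
  have hk : (#I : ℝ) ≤ Fintype.card V := by exact_mod_cast Finset.card_le_univ I
  have hm := two_edges_le G
  have h1 : 0 ≤ (Fintype.card V : ℝ) - 2 * (#G.edgeFinset : ℝ) / Fintype.card V := by
    rw [sub_nonneg, div_le_iff₀ hn]; nlinarith
  have h2 : (#I : ℝ) * ((Fintype.card V : ℝ) - 2 * (#G.edgeFinset : ℝ) / Fintype.card V)
      ≤ (Fintype.card V : ℝ) * ((Fintype.card V : ℝ) - 2 * (#G.edgeFinset : ℝ) / Fintype.card V) :=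
    mul_le_mul_of_nonneg_right hk h1
  have h3 : (Fintype.card V : ℝ) * ((Fintype.card V : ℝ) - 2 * (#G.edgeFinset : ℝ) / Fintype.card V)
      = (Fintype.card V : ℝ) ^ 2 - 2 * #G.edgeFinset := by
    field_simp
  rw [hE]; nlinarith

lemma ub3 [Nonempty V] (n m a b : ℝ) (hn : n = Fintype.card V) (hm : m = #G.edgeFinset)
    (ha : a = Real.sqrt (2 * m) / n) (hb : b = Real.sqrt (n ^ 2 - 2 * m) / n) :
    energy G ≤ 2 * n ^ 2 * max (a ^ 2 * (1 - a)) (b ^ 2 * (1 - b)) + 2 * n * Real.sqrt n := by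
  obtain ⟨I, hI, hE⟩ := energy_eq' G
  have hn0 : (0 : ℝ) < n := by rw [hn]; exact_mod_cast Fintype.card_pos
  have hm0 : 0 ≤ m := by rw [hm]; positivity
  have hmn : 2 * m ≤ n ^ 2 := by rw [hm, hn]; exact two_edges_le G
  have ha2 : a ^ 2 = 2 * m / n ^ 2 := by
    rw [ha, div_pow, Real.sq_sqrt (by positivity)]
  have hb2 : b ^ 2 = (n ^ 2 - 2 * m) / n ^ 2 := by
    rw [hb, div_pow, Real.sq_sqrt (by linarith)]
  have ha0 : 0 ≤ a := by rw [ha]; positivity
  have hb0 : 0 ≤ b := by rw [hb]; positivity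
  have hk : (#I : ℝ) ≤ n := by rw [hn]; exact_mod_cast Finset.card_le_univ I
  have hB := bound_B G I
  have hC := bound_C G I
  have hEE := bound_E G I
  rw [← hm] at hB hEE hE
  rw [← hn] at hC hE
  set T := ∑ i ∈ I, ev G i with hT
  set k : ℝ := (#I : ℝ) with hkdef
  have hk0 : 0 ≤ k := by positivity
  have hsq : Real.sqrt (2 * m * k) ≤ n * Real.sqrt n := by
    rw [Real.sqrt_le_iff]
    refine ⟨by positivity, ?_⟩
    rw [mul_pow, Real.sq_sqrt hn0.le]
    have : 2 * m * k ≤ n ^ 2 * n := mul_le_mul hmn hk hk0 (by positivity)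
    exact this
  have key := g_bound a b (k / n) (T / n ^ 2) (Real.sqrt n / n) ha0 hb0
    (by rw [ha2, hb2]; field_simp; ring) (by positivity) (by positivity)
    (by
      rw [ha2, div_pow]
      have : T / n ^ 2 ≤ (m + k ^ 2 / 2 + n * Real.sqrt n) / n ^ 2 := by
        gcongr; linarith
      refine this.trans (le_of_eq ?_)
      field_simp)
    (by
      rw [div_le_div_iff₀ (by positivity) hn0]
      nlinarith)
    (by
      rw [ha2]; gcongr)
  have h4 : n ^ 2 * (T / n ^ 2 - a ^ 2 * (k / n)) = T - k * (2 * m / n) := by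
    rw [ha2]; field_simp
  have h5 : n ^ 2 * (Real.sqrt n / n) = n * Real.sqrt n := by field_simp
  have h6 := mul_le_mul_of_nonneg_left key (by positivity : 0 ≤ n ^ 2)
  rw [h4, mul_add, h5] at h6
  rw [hE]; linarith

end Pool.Agent.Helper69.LapEnergy
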