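import Pool.Agent.Helper69.LapEnergy.Graphs
import Pool.Agent.Helper69.LapEnergy.UB
import Pool.Agent.Helper69.LapEnergy.Asym

set_option autoImplicit false

open Finset

namespace Pool.Agent.Helper69.LapEnergy

lemma exists_small (N t : ℕ) (h : t ≤ N.choose 2) :
    ∃ q ≤ N, t ≤ q.choose 2 ∧ (q : ℝ) ≤ Real.sqrt (2 * t) + 2 := by
  classical
  have hex : ∃ q : ℕ, t ≤ q.choose 2 := ⟨N, h⟩
  refine ⟨Nat.find hex, Nat.find_min' hex h, Nat.find_spec hex, ?_⟩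
  set q := Nat.find hex with hq
  rcases Nat.lt_or_ge q 2 with h2 | h2
  · have : (q : ℝ) ≤ 2 := by exact_mod_cast h2.le
    linarith [Real.sqrt_nonneg (2 * (t : ℝ))]
  · have h3 : ¬ t ≤ (q - 1).choose 2 := Nat.find_min hex (by omega)
    push Not at h3
    obtain ⟨r, hr⟩ : ∃ r, q = r + 2 := ⟨q - 2, by omega⟩
    rw [hr] at h3 ⊢
    have h4 : (r + 2 - 1).choose 2 = (r + 1) * r / 2 := by
      rw [Nat.choose_two_right]; simp
    rw [h4] at h3
    have h5 : r * r ≤ 2 * t := by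
      have h6 : 2 ∣ (r + 1) * r := by
        rw [mul_comm]; exact (Nat.even_mul_succ_self r).two_dvd
      have h7 : (r + 1) * r = 2 * ((r + 1) * r / 2) := (Nat.mul_div_cancel' h6).symm
      nlinarith
    have h6 : (r : ℝ) ≤ Real.sqrt (2 * t) := by
      apply Real.le_sqrt_of_sq_le
      rw [sq]; exact_mod_cast h5
    push_cast
    linarith

/-- The asymptotic value. -/
noncomputable def Phi (n m : ℕ) : ℝ :=
  max ((4 * m - 2 * n) * (1 - Real.sqrt (2 * m) / n))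
    (2 * ((n : ℝ) ^ 2 - 2 * m) * (1 - Real.sqrt ((n : ℝ) ^ 2 - 2 * m) / n))

/-- The Laplacian energies of the connected graphs with `n` vertices and `m` edges. -/
def energySet (n m : ℕ) : Set ℝ :=
  {e | ∃ G : SimpleGraph (Fin n), G.Connected ∧ G.edgeSet.ncard = m ∧ lapEnergy G = e}

lemma energySet_finite (n m : ℕ) : (energySet n m).Finite := by
  apply Set.Finite.subset (Set.finite_range (fun G : SimpleGraph (Fin n) => lapEnergy G))
  rintro e ⟨G, _, _, rfl⟩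
  exact ⟨G, rfl⟩

lemma choose_two_pred (n : ℕ) (hn : 1 ≤ n) : n.choose 2 = (n - 1).choose 2 + (n - 1) := by
  obtain ⟨k, rfl⟩ : ∃ k, n = k + 1 := ⟨n - 1, by omega⟩
  rw [Nat.choose_succ_succ' k 1]
  simp [add_comm]

lemma choose_two_real (n : ℕ) : (n.choose 2 : ℝ) = n * (n - 1) / 2 := Nat.cast_choose_two ℝ n

theorem main (ε : ℝ) (hε : 0 < ε) (hε1 : ε ≤ 1) (n : ℕ) (hn : 2 ≤ n)
    (hn1 : (128 / ε ^ 3) ^ 2 ≤ (n : ℝ)) (hn2 : (320 / ε) ^ 2 ≤ (n : ℝ))
    (m : ℕ) (hm1 : n - 1 ≤ m) (hm2 : m ≤ n.choose 2) :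
    ∃ M, IsGreatest (energySet n m) M ∧ (1 - ε) * Phi n m ≤ M ∧ M ≤ (1 + ε) * Phi n m := by
  have hn2' : (2 : ℝ) ≤ n := by exact_mod_cast hn
  have hn0 : (0 : ℝ) < n := by linarith
  have hmR : (n : ℝ) - 1 ≤ m := by
    have : ((n - 1 : ℕ) : ℝ) ≤ m := by exact_mod_cast hm1
    rwa [Nat.cast_sub (by omega), Nat.cast_one] at this
  have hm2R : 2 * (m : ℝ) ≤ n * (n - 1) := by
    have : (m : ℝ) ≤ n.choose 2 := by exact_mod_cast hm2
    rw [choose_two_real] at this; linarith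
  have hwnn : 0 ≤ (n : ℝ) ^ 2 - 2 * m := by nlinarith
  set A : ℝ := Real.sqrt (2 * m) / n with hA
  set B : ℝ := Real.sqrt ((n : ℝ) ^ 2 - 2 * m) / n with hB
  have hA0 : 0 ≤ A := by positivity
  have hB0 : 0 ≤ B := by positivity
  have hAm : (n : ℝ) ^ 2 * A ^ 2 = 2 * m := by
    rw [hA, div_pow, Real.sq_sqrt (by positivity)]; field_simp
  have hBm : (n : ℝ) ^ 2 * B ^ 2 = (n : ℝ) ^ 2 - 2 * m := by
    rw [hB, div_pow, Real.sq_sqrt hwnn]; field_simp
  have hnA : Real.sqrt (2 * m) = n * A := by rw [hA]; field_simp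
  have hnB : Real.sqrt ((n : ℝ) ^ 2 - 2 * m) = n * B := by rw [hB]; field_simp
  have hΦ : Phi n m = max ((4 * m - 2 * n) * (1 - A)) (2 * ((n : ℝ) ^ 2 - 2 * m) * (1 - B)) := rfl
  have hA1 : A ≤ 1 := by
    by_contra h
    push Not at h
    have : (1 : ℝ) ^ 2 < A ^ 2 := pow_lt_pow_left₀ h (by norm_num) (by norm_num)
    nlinarith
  -- first graph
  obtain ⟨q, hq1, hq2, hq3⟩ := exists_small (n - 1) (m - (n - 1))
    (by rw [choose_two_pred n (by omega)] at hm2; omega)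
  obtain ⟨G1, hG1c, hG1m, hG1e⟩ := exists_G1 n m q (by omega) hm1 hq1 hq2
  have hLB1 : (4 * m - 2 * n) * (1 - A) - 8 * n * A ≤ lapEnergy G1 := by
    refine le_trans ?_ hG1e
    have hq4 : (q : ℝ) + 1 ≤ n * A + 3 := by
      have : Real.sqrt (2 * ((m - (n - 1) : ℕ) : ℝ)) ≤ Real.sqrt (2 * m) := by
        apply Real.sqrt_le_sqrt
        have : ((m - (n - 1) : ℕ) : ℝ) ≤ m := by exact_mod_cast Nat.sub_le _ _
        linarith
      linarith
    have h2mn : 2 * (m : ℝ) / n = n * A ^ 2 := by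
      rw [← hAm]; field_simp
    rw [h2mn]
    have h5 : ((q : ℝ) + 1) * (n * A ^ 2) ≤ (n * A + 3) * (n * A ^ 2) :=
      mul_le_mul_of_nonneg_right hq4 (by positivity)
    have h6 : n * A ^ 2 ≤ n * A := by
      rw [sq]; apply mul_le_mul_of_nonneg_left _ hn0.le; nlinarith
    have e1 : (4 * (m : ℝ) - 2 * n) * (1 - A) = 4 * m - 2 * n - 2 * A * (n ^ 2 * A ^ 2) + 2 * n * A := by
      rw [hAm]; ring
    have e2 : (n * A + 3) * (n * A ^ 2) = A * (n ^ 2 * A ^ 2) + 3 * (n * A ^ 2) := by ring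
    rw [e1]
    nlinarith
  -- second graph
  obtain ⟨s, hs1, hs2, hs3⟩ := exists_small (n - 1) (n.choose 2 - m)
    (by rw [choose_two_pred n (by omega)] at hm2 ⊢; omega)
  obtain ⟨G2, hG2c, hG2m, hG2e⟩ := exists_G2 n m s (by omega) hm2 (by omega) hs2
  have hLB2 : 2 * ((n : ℝ) ^ 2 - 2 * m) * (1 - B) - 6 * n * B ^ 2 ≤ lapEnergy G2 := by
    refine le_trans ?_ hG2e
    have hs4 : (s : ℝ) ≤ n * B + 2 := by
      have : Real.sqrt (2 * ((n.choose 2 - m : ℕ) : ℝ)) ≤ Real.sqrt ((n : ℝ) ^ 2 - 2 * m) := by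
        apply Real.sqrt_le_sqrt
        rw [Nat.cast_sub hm2, choose_two_real]
        nlinarith
      linarith
    have h2mn : (n : ℝ) - 2 * m / n = n * B ^ 2 := by
      have : (n : ℝ) * (n - 2 * m / n) = n * (n * B ^ 2) := by
        have e : (n : ℝ) * (n * B ^ 2) = n ^ 2 * B ^ 2 := by ring
        rw [e, hBm]; field_simp
      exact mul_left_cancel₀ hn0.ne' this
    rw [h2mn, ← hBm]
    have h5 : (n - (n * B + 2) - 1) * (n * B ^ 2) ≤ ((n : ℝ) - s - 1) * (n * B ^ 2) :=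
      mul_le_mul_of_nonneg_right (by linarith) (by positivity)
    nlinarith
  -- upper bound for every graph
  have hUB : ∀ e ∈ energySet n m, e ≤ (1 + ε) * Phi n m := by
    rintro e ⟨G, hGc, hGm, rfl⟩
    classical
    have : NeZero n := ⟨by omega⟩
    have : Nontrivial (Fin n) := Fin.nontrivial_iff_two_le.mpr hn
    have hedge : ∀ (inst : Fintype G.edgeSet),
        (#(@SimpleGraph.edgeFinset _ G inst) : ℝ) = m := by
      intro inst
      rw [← hGm, Set.ncard_eq_toFinset_card']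
      rfl
    rw [lapEnergy_eq]
    have u1 := ub1 G (fun v => hGc.preconnected.degree_pos_of_nontrivial v)
      (by rw [hedge, Fintype.card_fin]; exact hmR)
    have u2 := ub2 G
    have u3 := ub3 G n m A B (by simp) (hedge _).symm rfl rfl
    rw [hedge, Fintype.card_fin] at u1 u2
    rw [hΦ]
    exact asym_upper ε hε hε1 n m A B _ (Real.sqrt n) hn1 (Real.sqrt_nonneg _)
      (Real.sq_sqrt hn0.le) hA0 hB0 hAm hBm hmR u1 u2 u3
  obtain ⟨M, hM⟩ : ∃ M, IsGreatest (energySet n m) M := by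
    obtain ⟨M, hM1, hM2⟩ := Set.exists_max_image (energySet n m) id (energySet_finite n m)
      ⟨_, G1, hG1c, hG1m, rfl⟩
    exact ⟨M, hM1, fun x hx => hM2 x hx⟩
  refine ⟨M, hM, ?_, hUB M hM.1⟩
  rw [hΦ]
  exact asym_lower ε hε hε1 n m A B M (Real.sqrt n) hn2 (Real.sqrt_nonneg _)
    (Real.sq_sqrt hn0.le) hA0 hB0 hAm hBm hmR
    (hLB1.trans (hM.2 ⟨G1, hG1c, hG1m, rfl⟩)) (hLB2.trans (hM.2 ⟨G2, hG2c, hG2m, rfl⟩))

theorem main_rate (n : ℕ) (hn : (320 : ℝ) ^ 6 ≤ n) (m : ℕ) (hm1 : n - 1 ≤ m)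
    (hm2 : m ≤ n.choose 2) :
    ∃ M, IsGreatest (energySet n m) M ∧
      (1 - 320 * (n : ℝ) ^ (-(1 / 6 : ℝ))) * Phi n m ≤ M ∧
      M ≤ (1 + 320 * (n : ℝ) ^ (-(1 / 6 : ℝ))) * Phi n m := by
  have hn0 : (0 : ℝ) < n := lt_of_lt_of_le (by norm_num) hn
  have hn1 : (1 : ℝ) ≤ n := le_trans (by norm_num) hn
  set r : ℝ := (n : ℝ) ^ (1 / 6 : ℝ) with hr
  have hr0 : 0 < r := Real.rpow_pos_of_pos hn0 _
  have hr6 : r ^ 6 = n := by
    rw [hr, ← Real.rpow_natCast, ← Real.rpow_mul hn0.le]; norm_num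
  have hr320 : 320 ≤ r := by
    by_contra h
    push Not at h
    have : r ^ 6 < 320 ^ 6 := pow_lt_pow_left₀ h hr0.le (by norm_num)
    linarith
  have hneg : (n : ℝ) ^ (-(1 / 6 : ℝ)) = r⁻¹ := by rw [Real.rpow_neg hn0.le]
  rw [hneg]
  have hr1 : 1 ≤ r := by linarith
  refine main (320 * r⁻¹) (by positivity) ?_ n ?_ ?_ ?_ m hm1 hm2
  · rw [← div_eq_mul_inv, div_le_one hr0]; exact hr320
  · have : (2 : ℝ) ≤ n := le_trans (by norm_num) hn
    exact_mod_cast this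
  · have e : (128 / (320 * r⁻¹) ^ 3) ^ 2 = (128 / 320 ^ 3) ^ 2 * r ^ 6 := by
      field_simp
    rw [e, hr6]
    have : (128 / 320 ^ 3 : ℝ) ^ 2 ≤ 1 := by norm_num
    nlinarith
  · have e : (320 / (320 * r⁻¹)) ^ 2 = r ^ 2 := by
      field_simp
    rw [e, ← hr6]
    exact pow_le_pow_right₀ hr1 (by norm_num)

end Pool.Agent.Helper69.LapEnergy
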