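import Pool.Agent.Helper69.LapEnergy.Lower

set_option autoImplicit false
set_option linter.unusedSectionVars false

open Finset Matrix

namespace Pool.Agent.Helper69.LapEnergy

/-- the pairs inside a set -/
def pairs {V : Type*} [DecidableEq V] (Q : Finset V) : Finset (Sym2 V) :=
  Q.offDiag.image (Function.uncurry Sym2.mk)

lemma card_pairs {V : Type*} [DecidableEq V] (Q : Finset V) : #(pairs Q) = (#Q).choose 2 :=
  Sym2.card_image_offDiag Q

lemma mem_pairs {V : Type*} [DecidableEq V] (Q : Finset V) (v w : V) :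
    s(v, w) ∈ pairs Q ↔ v ∈ Q ∧ w ∈ Q ∧ v ≠ w := by
  unfold pairs
  simp only [Finset.mem_image, Finset.mem_offDiag, Prod.exists]
  constructor
  · rintro ⟨a, b, ⟨ha, hb, hab⟩, h⟩
    rw [Function.uncurry_apply_pair, Sym2.eq_iff] at h
    rcases h with ⟨rfl, rfl⟩ | ⟨rfl, rfl⟩
    · exact ⟨ha, hb, hab⟩
    · exact ⟨hb, ha, hab.symm⟩
  · rintro ⟨hv, hw, h⟩
    exact ⟨v, w, ⟨hv, hw, h⟩, rfl⟩

lemma not_isDiag_of_mem_pairs {V : Type*} [DecidableEq V] (Q : Finset V) (e : Sym2 V)
    (he : e ∈ pairs Q) : ¬ e.IsDiag := by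
  induction e with
  | _ v w => rw [mem_pairs] at he; simpa using he.2.2

lemma ncard_fromEdgeSet {V : Type*} [DecidableEq V] (E : Finset (Sym2 V))
    (hE : ∀ e ∈ E, ¬ e.IsDiag) : (SimpleGraph.fromEdgeSet (E : Set (Sym2 V))).edgeSet.ncard = #E := by
  rw [SimpleGraph.edgeSet_fromEdgeSet]
  have : (E : Set (Sym2 V)) \ Sym2.diagSet = E := by
    ext e
    simp only [Set.mem_sdiff, Finset.mem_coe, Sym2.mem_diagSet, and_iff_left_iff_imp]
    exact hE e
  rw [this, Set.ncard_coe_finset]

open Classical in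
/-- First construction: a dominating vertex plus edges inside a small set. -/
lemma exists_G1 (n m q : ℕ) (hn : 1 ≤ n) (hm : n - 1 ≤ m) (hq : q ≤ n - 1)
    (hqm : m - (n - 1) ≤ q.choose 2) :
    ∃ G : SimpleGraph (Fin n), G.Connected ∧ G.edgeSet.ncard = m ∧
      2 * ((2 * m - n) - (q + 1) * (2 * m / n) : ℝ) ≤ lapEnergy G := by
  have : NeZero n := ⟨by omega⟩
  obtain ⟨Q, hQ, hQc⟩ : ∃ Q ⊆ (univ.erase (0 : Fin n)), #Q = q := by
    apply Finset.exists_subset_card_eq
    simp; omega
  obtain ⟨F, hF, hFc⟩ : ∃ F ⊆ pairs Q, #F = m - (n - 1) := by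
    apply Finset.exists_subset_card_eq
    rw [card_pairs, hQc]; exact hqm
  set S : Finset (Sym2 (Fin n)) := (univ.erase (0 : Fin n)).image (fun v => s(0, v)) with hS
  have hSc : #S = n - 1 := by
    rw [hS, Finset.card_image_of_injective]
    · simp
    · intro a b h
      simp only [Sym2.eq_iff] at h
      rcases h with h | h
      · exact h.2
      · rw [← h.1, h.2]
  have h0Q : (0 : Fin n) ∉ Q := fun h => by simpa using hQ h
  have hdisj : Disjoint S F := by
    rw [Finset.disjoint_left]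
    intro e he hF'
    rw [hS, Finset.mem_image] at he
    obtain ⟨v, _, rfl⟩ := he
    have := hF hF'
    rw [mem_pairs] at this
    exact h0Q this.1
  set E := S ∪ F with hE
  have hdiag : ∀ e ∈ E, ¬ e.IsDiag := by
    intro e he
    rw [hE, Finset.mem_union] at he
    rcases he with he | he
    · rw [hS, Finset.mem_image] at he
      obtain ⟨v, hv, rfl⟩ := he
      simpa [eq_comm] using hv
    · exact not_isDiag_of_mem_pairs Q e (hF he)
  set G : SimpleGraph (Fin n) := SimpleGraph.fromEdgeSet (E : Set (Sym2 (Fin n))) with hG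
  have hcard : G.edgeSet.ncard = m := by
    rw [hG, ncard_fromEdgeSet E hdiag, hE, Finset.card_union_of_disjoint hdisj, hSc, hFc]
    omega
  have hdom : ∀ w, (0 : Fin n) ≠ w → G.Adj 0 w := by
    intro w hw
    rw [hG, SimpleGraph.fromEdgeSet_adj]
    refine ⟨?_, hw⟩
    rw [Finset.mem_coe, hE, Finset.mem_union]
    left
    rw [hS, Finset.mem_image]
    exact ⟨w, by simpa using hw.symm, rfl⟩
  refine ⟨G, connected_of_dom G 0 hdom, hcard, ?_⟩
  rw [lapEnergy_eq]
  have hedge : ∀ (inst : Fintype G.edgeSet), (#(@SimpleGraph.edgeFinset _ G inst) : ℝ) = m := by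
    intro inst
    rw [← hcard, Set.ncard_eq_toFinset_card']
    rfl
  have hT := lower_T G (insert 0 Q)
  rw [hedge, Fintype.card_fin] at hT
  refine le_trans ?_ hT
  have hout : ∀ v ∉ insert (0 : Fin n) Q, (G.degree v : ℝ) ≤ 1 := by
    intro v hv
    rw [Finset.mem_insert, not_or] at hv
    have : G.neighborFinset v ⊆ {0} := by
      intro w hw
      rw [SimpleGraph.mem_neighborFinset, hG, SimpleGraph.fromEdgeSet_adj, Finset.mem_coe, hE,
        Finset.mem_union] at hw
      rcases hw.1 with h | h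
      · rw [hS, Finset.mem_image] at h
        obtain ⟨x, _, hx⟩ := h
        rw [Sym2.eq_iff] at hx
        rcases hx with hx | hx
        · exact absurd hx.1.symm hv.1
        · simp [hx.1]
      · have := hF h
        rw [mem_pairs] at this
        exact absurd this.1 hv.2
    have h1 := Finset.card_le_card this
    rw [SimpleGraph.card_neighborFinset_eq_degree, Finset.card_singleton] at h1
    exact_mod_cast h1
  have hsum : (2 * m - n : ℝ) ≤ ∑ v ∈ insert (0 : Fin n) Q, (G.degree v : ℝ) := by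
    have h1 : ∑ v, (G.degree v : ℝ) = 2 * m := by
      have := G.sum_degrees_eq_twice_card_edges
      rw [← hedge G.fintypeEdgeSet]; exact_mod_cast this
    have h2 : ∑ v ∈ (insert (0 : Fin n) Q)ᶜ, (G.degree v : ℝ) ≤ n := by
      calc _ ≤ ∑ v ∈ (insert (0 : Fin n) Q)ᶜ, (1 : ℝ) :=
            Finset.sum_le_sum fun v hv => hout v (by simpa using hv)
        _ = (#(insert (0 : Fin n) Q)ᶜ : ℝ) := by simp
        _ ≤ n := by
          exact_mod_cast (Finset.card_le_univ _).trans (by simp)
    have h3 := Finset.sum_add_sum_compl (insert (0 : Fin n) Q) (fun v => (G.degree v : ℝ))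
    linarith
  rw [Finset.sum_sub_distrib]
  simp only [Finset.sum_const, nsmul_eq_mul, Finset.card_insert_of_notMem h0Q, hQc]
  push_cast
  linarith

open Classical in
/-- Second construction: remove `h` edges inside a set of `s` vertices from the complete graph. -/
lemma exists_G2 (n m s : ℕ) (hn : 1 ≤ n) (hm : m ≤ n.choose 2) (hs : s + 1 ≤ n)
    (hsm : n.choose 2 - m ≤ s.choose 2) :
    ∃ G : SimpleGraph (Fin n), G.Connected ∧ G.edgeSet.ncard = m ∧
      2 * (((n : ℝ) - s - 1) * (n - 2 * m / n)) ≤ lapEnergy G := by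
  have : NeZero n := ⟨by omega⟩
  obtain ⟨S, hS, hSc⟩ : ∃ S ⊆ (univ : Finset (Fin n)), #S = s := by
    apply Finset.exists_subset_card_eq
    simp; omega
  obtain ⟨F, hF, hFc⟩ : ∃ F ⊆ pairs S, #F = n.choose 2 - m := by
    apply Finset.exists_subset_card_eq
    rw [card_pairs, hSc]; exact hsm
  have hFall : F ⊆ pairs (univ : Finset (Fin n)) := by
    intro e he
    induction e with
    | _ v w =>
      have := hF he
      rw [mem_pairs] at this ⊢
      exact ⟨mem_univ _, mem_univ _, this.2.2⟩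
  set E : Finset (Sym2 (Fin n)) := pairs univ \ F with hE
  have hdiag : ∀ e ∈ E, ¬ e.IsDiag := by
    intro e he
    rw [hE, Finset.mem_sdiff] at he
    exact not_isDiag_of_mem_pairs _ e he.1
  set G : SimpleGraph (Fin n) := SimpleGraph.fromEdgeSet (E : Set (Sym2 (Fin n))) with hG
  have hcard : G.edgeSet.ncard = m := by
    rw [hG, ncard_fromEdgeSet E hdiag, hE, Finset.card_sdiff_of_subset hFall, hFc, card_pairs]
    simp; omega
  have hdom : ∀ v ∈ Sᶜ, ∀ w, v ≠ w → G.Adj v w := by
    intro v hv w hw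
    rw [Finset.mem_compl] at hv
    rw [hG, SimpleGraph.fromEdgeSet_adj]
    refine ⟨?_, hw⟩
    rw [Finset.mem_coe, hE, Finset.mem_sdiff, mem_pairs]
    refine ⟨⟨mem_univ _, mem_univ _, hw⟩, fun h => ?_⟩
    have := hF h
    rw [mem_pairs] at this
    exact hv this.1
  have hKc : #(Sᶜ) = n - s := by rw [Finset.card_compl, hSc]; simp
  have hKne : (Sᶜ).Nonempty := by
    rw [← Finset.card_pos, hKc]; omega
  obtain ⟨v₀, hv₀⟩ := hKne
  refine ⟨G, connected_of_dom G v₀ (hdom v₀ hv₀), hcard, ?_⟩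
  rw [lapEnergy_eq]
  have hedge : ∀ (inst : Fintype G.edgeSet), (#(@SimpleGraph.edgeFinset _ G inst) : ℝ) = m := by
    intro inst
    rw [← hcard, Set.ncard_eq_toFinset_card']
    rfl
  have hT := lower_K G Sᶜ ⟨v₀, hv₀⟩ hdom
  rw [hedge, Fintype.card_fin, hKc, Nat.cast_sub (by omega)] at hT
  refine le_trans (le_of_eq ?_) hT
  ring

end Pool.Agent.Helper69.LapEnergy
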