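import Pool.Agent.Helper69.LapEnergy.Upper

set_option autoImplicit false
set_option linter.unusedSectionVars false

open Finset Matrix

namespace Pool.Agent.Helper69.LapEnergy

section general
variable {V : Type*} [Fintype V] [DecidableEq V]
variable (G : SimpleGraph V) [DecidableRel G.Adj]

/-- Schur-type lower bound. -/
lemma lower_T [Nonempty V] (T : Finset V) :
    2 * ∑ v ∈ T, ((G.degree v : ℝ) - 2 * (#G.edgeFinset : ℝ) / Fintype.card V) ≤ energy G := by
  refine le_trans (le_of_eq ?_) (energy_ge G (fun i => ∑ v ∈ T, uu G i v ^ 2)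
    (fun i => Finset.sum_nonneg fun _ _ => sq_nonneg _) (fun i => ?_))
  · congr 1
    simp only [Finset.mul_sum]
    rw [Finset.sum_comm]
    refine Finset.sum_congr rfl fun v _ => ?_
    simp only [sub_mul, Finset.sum_sub_distrib, sum_ev_sq, ← Finset.mul_sum, sum_sq', mul_one]
  · rw [← sum_sq G i]
    exact Finset.sum_le_sum_of_subset_of_nonneg (Finset.subset_univ T) fun _ _ _ => sq_nonneg _

/-- Lower bound from a nonempty set of dominating vertices. -/
lemma lower_K [Nonempty V] (K : Finset V) (hK : K.Nonempty)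
    (hdom : ∀ v ∈ K, ∀ w, v ≠ w → G.Adj v w) :
    2 * ((#K : ℝ) - 1) * (Fintype.card V - 2 * (#G.edgeFinset : ℝ) / Fintype.card V)
      ≤ energy G := by
  have hk : (0 : ℝ) < #K := by exact_mod_cast hK.card_pos
  set c := 2 * (#G.edgeFinset : ℝ) / Fintype.card V with hc
  refine le_trans (le_of_eq ?_) (energy_ge G
    (fun i => ∑ v ∈ K, uu G i v ^ 2 - (∑ v ∈ K, uu G i v) ^ 2 / #K) (fun i => ?_) (fun i => ?_))
  · rw [← hc, mul_assoc]
    congr 1
    have hdeg : ∀ v ∈ K, (G.degree v : ℝ) = Fintype.card V - 1 := by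
      intro v hv
      rw [← sum_aa]
      have : ∀ w, aa G v w = 1 - if v = w then 1 else 0 := by
        intro w
        by_cases h : v = w
        · subst h; simp [aa_self]
        · simp [aa, hdom v hv w h, h]
      simp [this]
    have hL : ∀ v ∈ K, ∀ w, G.lapMatrix ℝ v w = (if v = w then (Fintype.card V : ℝ) else 0) - 1 := by
      intro v hv w
      rw [lap_entry]
      by_cases h : v = w
      · subst h; simp [aa_self, hdeg v hv]
      · simp [aa, hdom v hv w h, h]
    have e1 : ∑ i, (ev G i - c) * ∑ v ∈ K, uu G i v ^ 2 = #K * (Fintype.card V - 1 - c) := by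
      simp only [Finset.mul_sum]
      rw [Finset.sum_comm]
      have : ∀ v ∈ K, ∑ i, (ev G i - c) * uu G i v ^ 2 = Fintype.card V - 1 - c := by
        intro v hv
        simp only [sub_mul, Finset.sum_sub_distrib, sum_ev_sq, ← Finset.mul_sum, sum_sq', mul_one,
          hdeg v hv]
      rw [Finset.sum_congr rfl this]; simp; ring
    have e2 : ∑ i, (ev G i - c) * (∑ v ∈ K, uu G i v) ^ 2
        = #K * Fintype.card V - #K ^ 2 - c * #K := by
      have : ∀ i, (ev G i - c) * (∑ v ∈ K, uu G i v) ^ 2
          = ∑ v ∈ K, ∑ w ∈ K, (ev G i * (uu G i v * uu G i w) - c * (uu G i v * uu G i w)) := by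
        intro i
        rw [sq, Finset.sum_mul_sum, Finset.mul_sum]
        refine Finset.sum_congr rfl fun v _ => ?_
        rw [Finset.mul_sum]
        exact Finset.sum_congr rfl fun w _ => by ring
      simp only [this]
      rw [Finset.sum_comm]
      have : ∀ v ∈ K, ∑ i, ∑ w ∈ K, (ev G i * (uu G i v * uu G i w) - c * (uu G i v * uu G i w))
          = Fintype.card V - #K - c := by
        intro v hv
        rw [Finset.sum_comm]
        have : ∀ w ∈ K, ∑ i, (ev G i * (uu G i v * uu G i w) - c * (uu G i v * uu G i w))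
            = (if v = w then (Fintype.card V : ℝ) - c else 0) - 1 := by
          intro w _
          rw [Finset.sum_sub_distrib, sum_ev_mul, ← Finset.mul_sum, ortho_row, hL v hv]
          split_ifs <;> ring
        rw [Finset.sum_congr rfl this, Finset.sum_sub_distrib]
        simp [hv]
        ring
      rw [Finset.sum_congr rfl this]
      simp only [Finset.sum_const, nsmul_eq_mul]
      ring
    have e3 : ∑ i, (ev G i - c) * (∑ v ∈ K, uu G i v ^ 2 - (∑ v ∈ K, uu G i v) ^ 2 / #K)
        = ∑ i, (ev G i - c) * ∑ v ∈ K, uu G i v ^ 2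
          - (∑ i, (ev G i - c) * (∑ v ∈ K, uu G i v) ^ 2) / #K := by
      rw [Finset.sum_div, ← Finset.sum_sub_distrib]
      exact Finset.sum_congr rfl fun i _ => by ring
    rw [e3, e1, e2]
    field_simp
    ring
  · rw [sub_nonneg, div_le_iff₀ hk, mul_comm]
    exact sq_sum_le_card_mul_sum_sq
  · have h1 : ∑ v ∈ K, uu G i v ^ 2 ≤ 1 := by
      rw [← sum_sq G i]
      exact Finset.sum_le_sum_of_subset_of_nonneg (Finset.subset_univ K) fun _ _ _ => sq_nonneg _
    have h2 : 0 ≤ (∑ v ∈ K, uu G i v) ^ 2 / #K := div_nonneg (sq_nonneg _) hk.le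
    linarith

/-- A graph with a dominating vertex is connected. -/
lemma connected_of_dom (v₀ : V) (h : ∀ w, v₀ ≠ w → G.Adj v₀ w) : G.Connected := by
  have : Nonempty V := ⟨v₀⟩
  refine ⟨fun a b => ?_⟩
  have hr : ∀ w, G.Reachable v₀ w := by
    intro w
    by_cases hw : v₀ = w
    · subst hw; exact SimpleGraph.Reachable.refl _
    · exact (h w hw).reachable
  exact (hr a).symm.trans (hr b)

end general

open Classical in
/-- The Laplacian energy of a finite graph. -/
noncomputable def lapEnergy {V : Type*} [Fintype V] (G : SimpleGraph V) : ℝ :=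
  ∑ i, |(G.isHermitian_lapMatrix ℝ).eigenvalues i - 2 * (G.edgeSet.ncard : ℝ) / Fintype.card V|

lemma lapEnergy_eq {V : Type*} [Fintype V] [DecidableEq V] (G : SimpleGraph V)
    [DecidableRel G.Adj] : lapEnergy G = energy G := by
  have hcard : (G.edgeSet.ncard : ℝ) = #G.edgeFinset := by
    rw [Set.ncard_eq_toFinset_card']; rfl
  obtain ⟨E, hE⟩ : ∃ E, E = ev G := ⟨_, rfl⟩
  have key : ∀ (d : DecidableEq V) (r : DecidableRel G.Adj), @ev V _ d G r = E := by
    intro d r
    rw [hE, Subsingleton.elim d _, Subsingleton.elim r _]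
  unfold lapEnergy energy
  rw [hcard, ← hE]
  refine Finset.sum_congr rfl fun i _ => ?_
  rw [← key (fun a b => Classical.propDecidable _) (fun a b => Classical.propDecidable _)]
  rfl

end Pool.Agent.Helper69.LapEnergy
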