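import Mathlib

set_option autoImplicit false
set_option linter.unusedSectionVars false

open Finset Matrix

namespace Pool.Agent.Helper69.LapEnergy

variable {V : Type*} [Fintype V] [DecidableEq V]
variable (G : SimpleGraph V) [DecidableRel G.Adj]

/-- The Laplacian eigenvalues of `G`. -/
noncomputable def ev : V → ℝ := (G.isHermitian_lapMatrix ℝ).eigenvalues

/-- Orthonormal eigenvectors. -/
noncomputable def uu (i v : V) : ℝ :=
  ((G.isHermitian_lapMatrix ℝ).eigenvectorUnitary : Matrix V V ℝ) v i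

/-- adjacency indicator -/
noncomputable def aa (v w : V) : ℝ := if G.Adj v w then 1 else 0

lemma ortho_row (v w : V) : ∑ i, uu G i v * uu G i w = if v = w then 1 else 0 := by
  have h : ((G.isHermitian_lapMatrix ℝ).eigenvectorUnitary : Matrix V V ℝ) *
      star ((G.isHermitian_lapMatrix ℝ).eigenvectorUnitary : Matrix V V ℝ) = 1 :=
    Unitary.mul_star_self_of_mem (G.isHermitian_lapMatrix ℝ).eigenvectorUnitary.2
  have h2 := congrFun (congrFun h v) w
  rw [Matrix.mul_apply, Matrix.one_apply] at h2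
  simpa [uu, Matrix.star_apply] using h2

lemma ortho_col (i j : V) : ∑ v, uu G i v * uu G j v = if i = j then 1 else 0 := by
  have h : star ((G.isHermitian_lapMatrix ℝ).eigenvectorUnitary : Matrix V V ℝ) *
      ((G.isHermitian_lapMatrix ℝ).eigenvectorUnitary : Matrix V V ℝ) = 1 :=
    Unitary.star_mul_self_of_mem (G.isHermitian_lapMatrix ℝ).eigenvectorUnitary.2
  have h2 := congrFun (congrFun h i) j
  rw [Matrix.mul_apply, Matrix.one_apply] at h2
  simpa [uu, Matrix.star_apply] using h2

lemma lap_mul (i v : V) : ∑ w, G.lapMatrix ℝ v w * uu G i w = ev G i * uu G i v := by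
  have h := (G.isHermitian_lapMatrix ℝ).mulVec_eigenvectorBasis i
  have h2 := congrFun h v
  simp only [Matrix.mulVec, dotProduct, Pi.smul_apply, smul_eq_mul] at h2
  simpa [uu, ev, Matrix.IsHermitian.eigenvectorUnitary_apply] using h2

lemma lap_entry (v w : V) : G.lapMatrix ℝ v w = (if v = w then (G.degree v : ℝ) else 0) - aa G v w := by
  simp only [SimpleGraph.lapMatrix, SimpleGraph.degMatrix, Matrix.sub_apply, Matrix.diagonal_apply,
    SimpleGraph.adjMatrix_apply, aa]

lemma aa_symm (v w : V) : aa G v w = aa G w v := by simp [aa, G.adj_comm]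

lemma aa_nonneg (v w : V) : 0 ≤ aa G v w := by unfold aa; split_ifs <;> norm_num

lemma aa_le_one (v w : V) : aa G v w ≤ 1 := by unfold aa; split_ifs <;> norm_num

lemma aa_sq (v w : V) : aa G v w * aa G v w = aa G v w := by unfold aa; split_ifs <;> norm_num

lemma aa_self (v : V) : aa G v v = 0 := by simp [aa]

lemma sum_aa (v : V) : ∑ w, aa G v w = (G.degree v : ℝ) := by
  rw [SimpleGraph.degree_eq_sum_if_adj]; rfl

lemma sum_sum_aa : ∑ v, ∑ w, aa G v w = 2 * (#G.edgeFinset : ℝ) := by
  simp only [sum_aa]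
  exact_mod_cast G.sum_degrees_eq_twice_card_edges

lemma lap_mul' (i v : V) :
    (G.degree v : ℝ) * uu G i v - ∑ w, aa G v w * uu G i w = ev G i * uu G i v := by
  rw [← lap_mul]
  simp only [lap_entry, sub_mul, Finset.sum_sub_distrib, ite_mul, zero_mul]
  simp

lemma ev_eq (i : V) : ev G i = ∑ v, (G.degree v : ℝ) * uu G i v ^ 2
    - ∑ v, ∑ w, aa G v w * (uu G i v * uu G i w) := by
  have h1 : ev G i = ∑ v, (ev G i * uu G i v) * uu G i v := by
    have := ortho_col G i i
    simp only [if_true] at this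
    calc ev G i = ev G i * 1 := by ring
      _ = ev G i * ∑ v, uu G i v * uu G i v := by rw [this]
      _ = _ := by rw [Finset.mul_sum]; exact Finset.sum_congr rfl fun v _ => by ring
  rw [h1, ← Finset.sum_sub_distrib]
  refine Finset.sum_congr rfl fun v _ => ?_
  rw [← lap_mul', sub_mul, Finset.sum_mul]
  congr 1
  · ring
  · exact Finset.sum_congr rfl fun w _ => by ring

lemma ev_eq_energy (i : V) : ev G i = (∑ v, ∑ w, aa G v w * (uu G i v - uu G i w) ^ 2) / 2 := by
  have h1 : ∑ v, ∑ w, aa G v w * (uu G i v - uu G i w) ^ 2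
      = ∑ v, ∑ w, aa G v w * uu G i v ^ 2 + ∑ v, ∑ w, aa G v w * uu G i w ^ 2
        - 2 * ∑ v, ∑ w, aa G v w * (uu G i v * uu G i w) := by
    rw [Finset.mul_sum, ← Finset.sum_add_distrib, ← Finset.sum_sub_distrib]
    refine Finset.sum_congr rfl fun v _ => ?_
    rw [Finset.mul_sum, ← Finset.sum_add_distrib, ← Finset.sum_sub_distrib]
    refine Finset.sum_congr rfl fun w _ => ?_
    ring
  have h2 : ∑ v, ∑ w, aa G v w * uu G i w ^ 2 = ∑ v, ∑ w, aa G v w * uu G i v ^ 2 := by
    rw [Finset.sum_comm]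
    exact Finset.sum_congr rfl fun v _ => Finset.sum_congr rfl fun w _ => by rw [aa_symm]
  have h3 : ∑ v, ∑ w, aa G v w * uu G i v ^ 2 = ∑ v, (G.degree v : ℝ) * uu G i v ^ 2 := by
    refine Finset.sum_congr rfl fun v _ => ?_
    rw [← Finset.sum_mul, sum_aa]
  rw [ev_eq, h1, h2, h3]; ring

lemma ev_nonneg (i : V) : 0 ≤ ev G i := by
  rw [ev_eq_energy]
  apply div_nonneg _ (by norm_num)
  exact Finset.sum_nonneg fun v _ => Finset.sum_nonneg fun w _ =>
    mul_nonneg (aa_nonneg G v w) (sq_nonneg _)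

lemma sum_sq (i : V) : ∑ v, uu G i v ^ 2 = 1 := by
  have := ortho_col G i i
  simp only [if_true] at this
  rw [← this]; exact Finset.sum_congr rfl fun v _ => by ring

lemma sum_sq' (v : V) : ∑ i, uu G i v ^ 2 = 1 := by
  have := ortho_row G v v
  simp only [if_true] at this
  rw [← this]; exact Finset.sum_congr rfl fun v _ => by ring

lemma ev_le_card (i : V) : ev G i ≤ Fintype.card V := by
  rw [ev_eq_energy, div_le_iff₀ (by norm_num)]
  calc ∑ v, ∑ w, aa G v w * (uu G i v - uu G i w) ^ 2
      ≤ ∑ v, ∑ w, (uu G i v - uu G i w) ^ 2 := by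
        refine Finset.sum_le_sum fun v _ => Finset.sum_le_sum fun w _ => ?_
        nlinarith [aa_le_one G v w, sq_nonneg (uu G i v - uu G i w)]
    _ = ∑ v, ∑ w, (uu G i v ^ 2 + uu G i w ^ 2 - 2 * (uu G i v * uu G i w)) := by
        refine Finset.sum_congr rfl fun v _ => Finset.sum_congr rfl fun w _ => ?_
        ring
    _ = 2 * Fintype.card V - 2 * (∑ v, uu G i v) * ∑ w, uu G i w := by
        simp only [Finset.sum_sub_distrib, Finset.sum_add_distrib, Finset.sum_const,
          ← Finset.mul_sum, sum_sq, Finset.card_univ, nsmul_eq_mul, mul_one, ← Finset.sum_mul]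
        ring
    _ ≤ _ := by nlinarith [mul_self_nonneg (∑ v, uu G i v)]

lemma sum_ev : ∑ i, ev G i = 2 * (#G.edgeFinset : ℝ) := by
  have h := (G.isHermitian_lapMatrix ℝ).trace_eq_sum_eigenvalues
  simp only [RCLike.ofReal_real_eq_id, id] at h
  rw [show (∑ i, ev G i) = ∑ i, (G.isHermitian_lapMatrix ℝ).eigenvalues i from rfl, ← h,
    Matrix.trace, ← sum_sum_aa]
  refine Finset.sum_congr rfl fun v _ => ?_
  rw [Matrix.diag_apply, lap_entry, aa_self, sum_aa]; simp

/-- spectral expansion of the diagonal -/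
lemma sum_ev_sq (v : V) : ∑ i, ev G i * uu G i v ^ 2 = G.degree v := by
  have h : ∑ i, ev G i * uu G i v ^ 2 = ∑ i, ∑ w, (G.lapMatrix ℝ v w * uu G i w) * uu G i v := by
    refine Finset.sum_congr rfl fun i _ => ?_
    rw [← Finset.sum_mul, lap_mul]; ring
  rw [h, Finset.sum_comm]
  have h2 : ∀ w, ∑ i, (G.lapMatrix ℝ v w * uu G i w) * uu G i v
      = if w = v then G.lapMatrix ℝ v w else 0 := by
    intro w
    calc _ = G.lapMatrix ℝ v w * ∑ i, uu G i w * uu G i v := by
          rw [Finset.mul_sum]; exact Finset.sum_congr rfl fun i _ => by ring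
      _ = _ := by rw [ortho_row]; split_ifs <;> simp
  simp only [h2, Finset.sum_ite_eq', Finset.mem_univ, if_true]
  rw [lap_entry, aa_self]; simp

/-- spectral expansion of entries -/
lemma sum_ev_mul (v w : V) : ∑ i, ev G i * (uu G i v * uu G i w) = G.lapMatrix ℝ v w := by
  have h : ∑ i, ev G i * (uu G i v * uu G i w)
      = ∑ i, ∑ x, (G.lapMatrix ℝ v x * uu G i x) * uu G i w := by
    refine Finset.sum_congr rfl fun i _ => ?_
    rw [← Finset.sum_mul, lap_mul]; ring
  rw [h, Finset.sum_comm]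
  have h2 : ∀ x, ∑ i, (G.lapMatrix ℝ v x * uu G i x) * uu G i w
      = if x = w then G.lapMatrix ℝ v x else 0 := by
    intro x
    calc _ = G.lapMatrix ℝ v x * ∑ i, uu G i x * uu G i w := by
          rw [Finset.mul_sum]; exact Finset.sum_congr rfl fun i _ => by ring
      _ = _ := by rw [ortho_row]; split_ifs <;> simp
  simp only [h2, Finset.sum_ite_eq', Finset.mem_univ, if_true]

end Pool.Agent.Helper69.LapEnergy
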