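import Pool.Agent.Helper69.LapEnergy.Spec

set_option autoImplicit false
set_option linter.unusedSectionVars false

open Finset Matrix

namespace Pool.Agent.Helper69.LapEnergy

variable {V : Type*} [Fintype V] [DecidableEq V]
variable (G : SimpleGraph V) [DecidableRel G.Adj]

/-- Sum of the eigenvalues in `I` is at most `m + k²/2 + √(2mk)`. -/
lemma bound_B (I : Finset V) : ∑ i ∈ I, ev G i ≤
    (#G.edgeFinset : ℝ) + (#I : ℝ) ^ 2 / 2 + Real.sqrt (2 * #G.edgeFinset * #I) := by
  set p : V → ℝ := fun v => ∑ i ∈ I, uu G i v ^ 2 with hp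
  set P : V → V → ℝ := fun v w => ∑ i ∈ I, uu G i v * uu G i w with hP
  have hp0 : ∀ v, 0 ≤ p v := fun v => Finset.sum_nonneg fun i _ => sq_nonneg _
  have hp1 : ∀ v, p v ≤ 1 := fun v => by
    rw [← sum_sq' G v]
    exact Finset.sum_le_sum_of_subset_of_nonneg (Finset.subset_univ I) fun i _ _ => sq_nonneg _
  have hpsum : ∑ v, p v = #I := by
    rw [hp]; simp only
    rw [Finset.sum_comm]
    simp [sum_sq]
  have h1 : ∑ i ∈ I, ev G i = ∑ v, (G.degree v : ℝ) * p v - ∑ v, ∑ w, aa G v w * P v w := by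
    simp only [ev_eq, Finset.sum_sub_distrib]
    congr 1
    · rw [Finset.sum_comm]
      exact Finset.sum_congr rfl fun v _ => by rw [hp, Finset.mul_sum]
    · rw [Finset.sum_comm]
      refine Finset.sum_congr rfl fun v _ => ?_
      rw [Finset.sum_comm]
      exact Finset.sum_congr rfl fun w _ => by rw [hP, Finset.mul_sum]
  have h2 : ∑ v, (G.degree v : ℝ) * p v ≤ (#G.edgeFinset : ℝ) + (#I : ℝ) ^ 2 / 2 := by
    have e1 : ∑ v, (G.degree v : ℝ) * p v = ∑ v, ∑ w, aa G v w * p v := by
      refine Finset.sum_congr rfl fun v _ => ?_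
      rw [← sum_aa, Finset.sum_mul]
    have e2 : ∑ v, ∑ w, aa G v w * p v = ∑ v, ∑ w, aa G v w * p w := by
      rw [Finset.sum_comm]
      exact Finset.sum_congr rfl fun v _ => Finset.sum_congr rfl fun w _ => by rw [aa_symm]
    have e3 : 2 * ∑ v, (G.degree v : ℝ) * p v = ∑ v, ∑ w, aa G v w * (p v + p w) := by
      simp only [mul_add, Finset.sum_add_distrib]
      rw [← e2, ← e1]; ring
    have e4 : ∑ v, ∑ w, aa G v w * (p v + p w) ≤ ∑ v, ∑ w, (aa G v w + p v * p w) := by
      refine Finset.sum_le_sum fun v _ => Finset.sum_le_sum fun w _ => ?_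
      have ha0 := aa_nonneg G v w
      have ha1 := aa_le_one G v w
      have : p v + p w ≤ 1 + p v * p w := by nlinarith [hp1 v, hp1 w]
      have hpp : 0 ≤ p v * p w := mul_nonneg (hp0 v) (hp0 w)
      nlinarith
    have e5 : ∑ v, ∑ w, (aa G v w + p v * p w) = 2 * (#G.edgeFinset : ℝ) + (#I : ℝ) ^ 2 := by
      simp only [Finset.sum_add_distrib, ← Finset.mul_sum, ← Finset.sum_mul, hpsum]
      rw [sum_sum_aa]; ring
    linarith
  have h3 : -∑ v, ∑ w, aa G v w * P v w ≤ Real.sqrt (2 * #G.edgeFinset * #I) := by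
    apply Real.le_sqrt_of_sq_le
    have cs : (∑ x ∈ (Finset.univ : Finset (V × V)), aa G x.1 x.2 * P x.1 x.2) ^ 2 ≤
        (∑ x ∈ (Finset.univ : Finset (V × V)), aa G x.1 x.2 ^ 2) *
        ∑ x ∈ (Finset.univ : Finset (V × V)), P x.1 x.2 ^ 2 :=
      Finset.sum_mul_sq_le_sq_mul_sq _ _ _
    rw [Fintype.sum_prod_type, Fintype.sum_prod_type, Fintype.sum_prod_type] at cs
    have ea : ∑ v, ∑ w, aa G v w ^ 2 = 2 * (#G.edgeFinset : ℝ) := by
      rw [← sum_sum_aa]
      exact Finset.sum_congr rfl fun v _ => Finset.sum_congr rfl fun w _ => by rw [sq, aa_sq]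
    have eP : ∑ v, ∑ w, P v w ^ 2 = #I := by
      calc ∑ v, ∑ w, P v w ^ 2
          = ∑ v, ∑ w, ∑ i ∈ I, ∑ j ∈ I, (uu G i v * uu G j v) * (uu G i w * uu G j w) := by
            refine Finset.sum_congr rfl fun v _ => Finset.sum_congr rfl fun w _ => ?_
            rw [hP, sq, Finset.sum_mul_sum]
            exact Finset.sum_congr rfl fun i _ => Finset.sum_congr rfl fun j _ => by ring
        _ = ∑ v, ∑ i ∈ I, ∑ j ∈ I, ∑ w, (uu G i v * uu G j v) * (uu G i w * uu G j w) := by
            refine Finset.sum_congr rfl fun v _ => ?_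
            rw [Finset.sum_comm]
            refine Finset.sum_congr rfl fun i _ => ?_
            rw [Finset.sum_comm]
        _ = ∑ v, ∑ i ∈ I, ∑ j ∈ I, (uu G i v * uu G j v) * (if i = j then 1 else 0) := by
            refine Finset.sum_congr rfl fun v _ => Finset.sum_congr rfl fun i _ =>
              Finset.sum_congr rfl fun j _ => ?_
            rw [← Finset.mul_sum, ortho_col]
        _ = ∑ v, ∑ i ∈ I, uu G i v ^ 2 := by
            refine Finset.sum_congr rfl fun v _ => Finset.sum_congr rfl fun i hi => ?_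
            simp only [mul_ite, mul_one, mul_zero, Finset.sum_ite_eq, hi, if_true]
            ring
        _ = _ := hpsum
    rw [ea, eP] at cs
    have : (-∑ v, ∑ w, aa G v w * P v w) ^ 2 = (∑ v, ∑ w, aa G v w * P v w) ^ 2 := by ring
    rw [this]; exact cs
  rw [h1]; linarith

/-- Sum of the eigenvalues in `I` is at most `k n`. -/
lemma bound_C (I : Finset V) : ∑ i ∈ I, ev G i ≤ (#I : ℝ) * Fintype.card V := by
  calc ∑ i ∈ I, ev G i ≤ ∑ i ∈ I, (Fintype.card V : ℝ) := Finset.sum_le_sum fun i _ => ev_le_card G i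
    _ = _ := by simp

/-- Sum of the eigenvalues in `I` is at most `2m`. -/
lemma bound_E (I : Finset V) : ∑ i ∈ I, ev G i ≤ 2 * (#G.edgeFinset : ℝ) := by
  rw [← sum_ev]
  exact Finset.sum_le_sum_of_subset_of_nonneg (Finset.subset_univ I) fun i _ _ => ev_nonneg G i

/-- For graphs without isolated vertices: sum of the eigenvalues in `I` is at most
`2m - n + 2k`. -/
lemma bound_D (hd : ∀ v, 1 ≤ G.degree v) (I : Finset V) (hI : ∀ i ∈ I, 0 < ev G i) :
    ∑ i ∈ I, ev G i ≤ 2 * (#G.edgeFinset : ℝ) - Fintype.card V + 2 * #I := by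
  set a : V → ℝ := fun v => ∑ i ∈ I, ev G i * uu G i v ^ 2 with ha
  set t : V → ℝ := fun v => ∑ i ∈ I, (ev G i)⁻¹ * ∑ w, aa G v w * (uu G i v - uu G i w) ^ 2 with ht
  have h1 : ∑ i ∈ I, ev G i = ∑ v, a v := by
    rw [ha]; simp only
    rw [Finset.sum_comm]
    exact Finset.sum_congr rfl fun i _ => by rw [← Finset.mul_sum, sum_sq, mul_one]
  have h2 : ∑ v, t v = 2 * #I := by
    rw [ht]; simp only
    rw [Finset.sum_comm]
    have : ∀ i ∈ I, ∑ v, (ev G i)⁻¹ * ∑ w, aa G v w * (uu G i v - uu G i w) ^ 2 = 2 := by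
      intro i hi
      rw [← Finset.mul_sum]
      have := ev_eq_energy G i
      have hpos := hI i hi
      rw [show ∑ v, ∑ w, aa G v w * (uu G i v - uu G i w) ^ 2 = 2 * ev G i by linarith]
      field_simp
    rw [Finset.sum_congr rfl this]; simp [mul_comm]
  have h3 : ∀ v, a v ≤ t v + (G.degree v - 1) := by
    intro v
    have hdv : (1 : ℝ) ≤ G.degree v := by exact_mod_cast hd v
    have hd0 : (0 : ℝ) < G.degree v := by linarith
    have a1 : a v ≤ G.degree v := by
      rw [← sum_ev_sq]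
      exact Finset.sum_le_sum_of_subset_of_nonneg (Finset.subset_univ I)
        fun i _ _ => mul_nonneg (ev_nonneg G i) (sq_nonneg _)
    have a2 : a v ≤ G.degree v * t v := by
      rw [ha, ht, Finset.mul_sum]
      refine Finset.sum_le_sum fun i hi => ?_
      have hpos := hI i hi
      have key : (ev G i * uu G i v) ^ 2 ≤
          (G.degree v : ℝ) * ∑ w, aa G v w * (uu G i v - uu G i w) ^ 2 := by
        have e1 : ev G i * uu G i v = ∑ w, aa G v w * (uu G i v - uu G i w) := by
          rw [← lap_mul', ← sum_aa, Finset.sum_mul, ← Finset.sum_sub_distrib]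
          exact Finset.sum_congr rfl fun w _ => by ring
        have e2 : ev G i * uu G i v = ∑ w, aa G v w * (aa G v w * (uu G i v - uu G i w)) := by
          rw [e1]; refine Finset.sum_congr rfl fun w _ => ?_
          rw [← mul_assoc, aa_sq]
        rw [e2]
        refine (Finset.sum_mul_sq_le_sq_mul_sq _ _ _).trans (le_of_eq ?_)
        congr 1
        · rw [← sum_aa]; exact Finset.sum_congr rfl fun w _ => by rw [sq, aa_sq]
        · refine Finset.sum_congr rfl fun w _ => ?_
          rw [mul_pow, sq (aa G v w), aa_sq]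
      have : ev G i * uu G i v ^ 2 = (ev G i)⁻¹ * (ev G i * uu G i v) ^ 2 := by
        field_simp
      rw [this]
      calc (ev G i)⁻¹ * (ev G i * uu G i v) ^ 2
          ≤ (ev G i)⁻¹ * ((G.degree v : ℝ) * ∑ w, aa G v w * (uu G i v - uu G i w) ^ 2) :=
            mul_le_mul_of_nonneg_left key (inv_nonneg.mpr hpos.le)
        _ = _ := by ring
    by_contra hcon
    push Not at hcon
    have : (G.degree v : ℝ) * (t v + (G.degree v - 1)) < G.degree v * a v :=
      mul_lt_mul_of_pos_left hcon hd0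
    nlinarith
  calc ∑ i ∈ I, ev G i = ∑ v, a v := h1
    _ ≤ ∑ v, (t v + (G.degree v - 1)) := Finset.sum_le_sum fun v _ => h3 v
    _ = 2 * #I + (2 * #G.edgeFinset - Fintype.card V) := by
        rw [Finset.sum_add_distrib, h2, Finset.sum_sub_distrib]
        have : ∑ v, (G.degree v : ℝ) = 2 * #G.edgeFinset := by
          exact_mod_cast G.sum_degrees_eq_twice_card_edges
        rw [this]; simp
    _ = _ := by ring

/-- The Laplacian energy (with the chosen decidability instances). -/
noncomputable def energy : ℝ :=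
  ∑ i, |ev G i - 2 * (#G.edgeFinset : ℝ) / Fintype.card V|

lemma sum_ev_sub [Nonempty V] : ∑ i, (ev G i - 2 * (#G.edgeFinset : ℝ) / Fintype.card V) = 0 := by
  have hn : (Fintype.card V : ℝ) ≠ 0 := by
    exact_mod_cast Fintype.card_ne_zero
  rw [Finset.sum_sub_distrib, sum_ev]
  simp only [Finset.sum_const, Finset.card_univ, nsmul_eq_mul]
  field_simp
  ring

/-- The energy as twice the sum of the positive parts. -/
lemma energy_eq [Nonempty V] : energy G =
    2 * ∑ i ∈ univ.filter (fun i => 2 * (#G.edgeFinset : ℝ) / Fintype.card V < ev G i),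
      (ev G i - 2 * (#G.edgeFinset : ℝ) / Fintype.card V) := by
  set c := 2 * (#G.edgeFinset : ℝ) / Fintype.card V with hc
  have h0 := sum_ev_sub G
  rw [← hc] at h0
  have h1 : ∀ i, |ev G i - c| = 2 * (if c < ev G i then ev G i - c else 0) - (ev G i - c) := by
    intro i
    split_ifs with h
    · rw [abs_of_pos (by linarith)]; ring
    · rw [abs_of_nonpos (by linarith)]; ring
  rw [energy, ← hc, Finset.sum_congr rfl fun i _ => h1 i, Finset.sum_sub_distrib, h0, sub_zero,
    ← Finset.mul_sum, Finset.sum_filter]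

/-- Any weights `0 ≤ W ≤ 1` give a lower bound for the energy. -/
lemma energy_ge [Nonempty V] (q : V → ℝ) (h0 : ∀ i, 0 ≤ q i) (h1 : ∀ i, q i ≤ 1) :
    2 * ∑ i, (ev G i - 2 * (#G.edgeFinset : ℝ) / Fintype.card V) * q i ≤ energy G := by
  set c := 2 * (#G.edgeFinset : ℝ) / Fintype.card V with hc
  have hs := sum_ev_sub G
  rw [← hc] at hs
  have : 2 * ∑ i, (ev G i - c) * q i = ∑ i, (ev G i - c) * (2 * q i - 1) := by
    simp only [mul_sub, Finset.sum_sub_distrib, mul_one, hs, sub_zero, Finset.mul_sum]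
    exact Finset.sum_congr rfl fun i _ => by ring
  rw [this, energy, ← hc]
  refine Finset.sum_le_sum fun i _ => ?_
  have : |2 * q i - 1| ≤ 1 := by rw [abs_le]; constructor <;> linarith [h0 i, h1 i]
  calc (ev G i - c) * (2 * q i - 1) ≤ |(ev G i - c) * (2 * q i - 1)| := le_abs_self _
    _ = |ev G i - c| * |2 * q i - 1| := abs_mul _ _
    _ ≤ |ev G i - c| * 1 := mul_le_mul_of_nonneg_left this (abs_nonneg _)
    _ = _ := mul_one _

end Pool.Agent.Helper69.LapEnergy
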